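import Mathlib

/-!
# Semisimplicity of `ℓ`-adic cohomology and rational varieties: definitions
-/

universe u

namespace Pool.Agent.Q129.SS

/-- a linear representation of the group `G` over `F` (a field, in the theorem) -/
structure GRep (F : Type) [CommRing F] (G : Type u) [Group G] where
  /-- the vector space -/
  V : Type u
  [grp : AddCommGroup V]
  [mod : Module F V]
  /-- the action of `G` -/
  ρ : G → V →ₗ[F] V
  one : ρ 1 = LinearMap.id
  mul : ∀ g h, ρ (g * h) = ρ g ∘ₗ ρ h

attribute [instance] GRep.grp GRep.mod

namespace GRep

variable {F : Type} [CommRing F] {G : Type u} [Group G]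

/-- the subspace is stable under the group -/
def Stable (R : GRep F G) (W : Submodule F R.V) : Prop := ∀ g, ∀ x ∈ W, R.ρ g x ∈ W

/-- The representation is semisimple: each stable subspace has a stable complement. -/
def Semisimple (R : GRep F G) : Prop :=
  ∀ W : Submodule F R.V, R.Stable W → ∃ C : Submodule F R.V, R.Stable C ∧ IsCompl W C

/-- The linear map `s` is equivariant up to the function `χ` (a character). -/
def Equivariant (R R' : GRep F G) (χ : G → F) (s : R.V →ₗ[F] R'.V) : Prop :=
  ∀ g x, R'.ρ g (s x) = χ g • s (R.ρ g x)

/-- `R` is contained in `R'` up to a twist: there is an injective linear map which is equivariant up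
to a character `χ`. -/
def TwistIn (R R' : GRep F G) : Prop :=
  ∃ (χ : G → F) (s : R.V →ₗ[F] R'.V), (∀ g, IsUnit (χ g)) ∧ R.Equivariant R' χ s ∧
    Function.Injective s

/-- the tensor square -/
def square (R : GRep F G) : GRep F G where
  V := TensorProduct F R.V R.V
  ρ g := TensorProduct.map (R.ρ g) (R.ρ g)
  one := by rw [R.one]; exact TensorProduct.map_id
  mul g h := by rw [R.mul]; exact TensorProduct.map_comp _ _ _ _

end GRep

/-- Finitely generated fields `k` of characteristic zero, smooth projective varieties over them, and
their `ℓ`-adic cohomology, for a fixed prime number `ℓ`; `F` is the field `ℚ_ℓ`. -/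
structure EtaleCohomology (F : Type) [CommRing F] where
  /-- the finitely generated fields of characteristic zero -/
  Fld : Type u
  /-- the field of rational numbers -/
  rat : Fld
  /-- the absolute Galois group of `k` -/
  Gal : Fld → Type u
  [grp : ∀ k, Group (Gal k)]
  /-- the smooth projective varieties over `k`, nonempty and equidimensional -/
  Var : Fld → Type u
  /-- the dimension -/
  dim : ∀ {k : Fld}, Var k → ℕ
  /-- the representation `H^i_ℓ(X)` of the Galois group of `k` -/
  H : ∀ {k : Fld}, Var k → ℕ → GRep.{u} F (Gal k)
  /-- the product `X × X`, for a variety `X` over `ℚ` -/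
  square : Var rat → Var rat
  /-- the disjoint union of the members of the list embeds in the projective space `ℙ^n` over `ℚ`,
  with all codimensions at least two, for all `n ≥ N0 l` -/
  N0 : List (Var rat) → ℕ
  /-- the blow-up of `ℙ^n` over `ℚ` along this disjoint union, for a fixed embedding (of interest
  only for `n ≥ N0 l`): a smooth projective rational variety of dimension `n` -/
  Bl : List (Var rat) → ℕ → Var rat

attribute [instance] EtaleCohomology.grp

namespace EtaleCohomology

variable {F : Type} [CommRing F] (T : EtaleCohomology.{u} F)

/-- The representation `H^i_ℓ(X)` is semisimple. -/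
def Semisimple {k : T.Fld} (X : T.Var k) (i : ℕ) : Prop := (T.H X i).Semisimple

/-- Known facts.
* `finite`, `above`: the cohomology groups are finite-dimensional, and zero in degrees `> 2 dim X`.
* `overQ`: for every variety `X` over a finitely generated field `k` of characteristic zero there is
  a variety `Z` over `ℚ` such that semisimplicity of `H^i(Z)` implies semisimplicity of `H^i(X)` for
  all `i`. (Serre: `X` has a specialization `X'` over a number field `K` such that the Galois groups
  of `k` and `K` have the same image in the linear group of `H^*(X) = H^*(X')`; `Z` is `X'` as a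
  variety over `ℚ`, its cohomology is induced from the one of `X'`, and a semisimple representation
  of the Galois group of `ℚ` is a semisimple representation of the one of `K`, by Clifford.)
* `square_dim`, `kunneth`: the dimension of `X × X` and the Künneth formula: `H^(2i)(X × X)` contains
  `H^i(X) ⊗ H^i(X)`.
* `blowup`: the blow-up formula: `H^i(X)(-j)` is contained in `H^(i+2j)(Y)`, for `X` in the list and
  `0 < j < n - dim X`, where `Y` is the blow-up of `ℙ^n` along the disjoint union. -/
structure Facts : Prop where
  finite : ∀ (X : T.Var T.rat) (i : ℕ), Module.Finite F (T.H X i).V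
  above : ∀ (X : T.Var T.rat) (i : ℕ), 2 * T.dim X < i → Subsingleton (T.H X i).V
  overQ : ∀ {k : T.Fld} (X : T.Var k), ∃ Z : T.Var T.rat, ∀ i, T.Semisimple Z i → T.Semisimple X i
  square_dim : ∀ X, T.dim (T.square X) = 2 * T.dim X
  kunneth : ∀ (X : T.Var T.rat) (i : ℕ), (T.H X i).square.TwistIn (T.H (T.square X) (2 * i))
  blowup : ∀ (l : List (T.Var T.rat)) (n : ℕ), T.N0 l ≤ n → ∀ X ∈ l, ∀ i j : ℕ, 0 < j →
    T.dim X + j < n → (T.H X i).TwistIn (T.H (T.Bl l n) (i + 2 * j))

/-- Q1: all `H^i_ℓ(X)` are semisimple, for all finitely generated fields of characteristic zero. -/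
def Question : Prop := ∀ (k : T.Fld) (X : T.Var k) (i : ℕ), T.Semisimple X i

/-- The sequence of finite lists `l s` of varieties over `ℚ` and of integers `N s` is *exhausting*:
each variety over `ℚ` belongs to all but finitely many of the lists, `N s` is larger than the
dimensions of the members of `l s`, and their disjoint union embeds in `ℙ^(2 N s)`. -/
structure Exhausting (l : ℕ → List (T.Var T.rat)) (N : ℕ → ℕ) : Prop where
  all : ∀ X, ∃ s₀, ∀ s, s₀ ≤ s → X ∈ l s
  dims : ∀ s, ∀ X ∈ l s, T.dim X < N s
  embeds : ∀ s, T.N0 (l s) ≤ 2 * N s

/-- The middle cohomology `H^(2N)(Y)` is semisimple, `Y` the blow-up of `ℙ^(2N)` along the disjoint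
union of the members of `l`. -/
def MiddleSemisimple (l : List (T.Var T.rat)) (N : ℕ) : Prop :=
  T.Semisimple (T.Bl l (2 * N)) (2 * N)

end EtaleCohomology

end Pool.Agent.Q129.SS
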