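import Pool.Agent.Q129.SS.Trace

/-!
# Semisimplicity of `ℓ`-adic cohomology and rational varieties
-/

universe u

namespace Pool.Agent.Q129.SS

open TensorProduct

namespace EtaleCohomology

variable {F : Type} [Field F] {T : EtaleCohomology.{u} F}

/-- the homomorphism defined by a representation -/
def hom {G : Type u} [Group G] (R : GRep F G) : G →* (R.V →ₗ[F] R.V) where
  toFun := R.ρ
  map_one' := R.one
  map_mul' := R.mul

lemma semisimple_iff {G : Type u} [Group G] (R : GRep F G) :
    R.Semisimple ↔ IsSemisimpleRep (hom R) := Iff.rfl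

lemma of_contained {G : Type u} [Group G] {R R' : GRep F G} (h : R.TwistIn R')
    (hR : R'.Semisimple) : R.Semisimple := by
  obtain ⟨χ, s, hχ, he, hs⟩ := h
  rw [semisimple_iff] at *
  exact of_twist (hom R) (hom R') (fun g => (hχ g).unit) s hs (fun g x => he g x) hR

lemma of_subsingleton {G : Type u} [Group G] {R : GRep F G} (h : Subsingleton R.V) :
    R.Semisimple := by
  intro W _
  refine ⟨⊤, fun _ _ _ => trivial, ?_⟩
  have : W = ⊥ := Subsingleton.elim _ _
  rw [this]
  exact isCompl_bot_top

/-- the tensor square decides -/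
lemma of_square [CharZero F] {G : Type u} [Group G] {R R' : GRep F G}
    (hfin : Module.Finite F R.V) (hs : R.square.TwistIn R') (h : R'.Semisimple) :
    R.Semisimple := by
  rcases subsingleton_or_nontrivial R.V with hs' | hn
  · exact of_subsingleton hs'
  · exact of_tensor (hom R) (hom R) (hom R.square) (fun _ => rfl) (of_contained hs h)

theorem exhausting_iff [CharZero F] (hT : T.Facts) (l : ℕ → List (T.Var T.rat)) (N : ℕ → ℕ)
    (hE : T.Exhausting l N) :
    T.Question ↔ {s | T.MiddleSemisimple (l s) (N s)}.Infinite := by
  constructor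
  · intro h
    have : {s | T.MiddleSemisimple (l s) (N s)} = Set.univ := by
      ext s
      simp only [Set.mem_setOf_eq, Set.mem_univ, iff_true]
      exact h _ _ _
    rw [this]
    exact Set.infinite_univ
  · intro h k X i
    obtain ⟨Z, hZ⟩ := hT.overQ X
    refine hZ i (of_square (hT.finite Z i) (hT.kunneth Z i) ?_)
    by_cases hi : 2 * T.dim (T.square Z) < 2 * i
    · exact of_subsingleton (hT.above (T.square Z) (2 * i) hi)
    · obtain ⟨s₀, hs₀⟩ := hE.all (T.square Z)
      obtain ⟨s, hs, hlt⟩ := h.exists_gt s₀
      have hmem := hs₀ s hlt.le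
      have hd := hE.dims s _ hmem
      have key := hT.blowup (l s) (2 * N s) (hE.embeds s) _ hmem (2 * i) (N s - i) (by omega)
        (by omega)
      have e : 2 * i + 2 * (N s - i) = 2 * N s := by omega
      rw [e] at key
      exact of_contained key hs

end EtaleCohomology

end Pool.Agent.Q129.SS
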