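import Pool.Agent.Q129.SS.Defs

/-!
# Serre: if `V ⊗ W` is semisimple, then `V` is semisimple
-/

namespace Pool.Agent.Q129.SS

open TensorProduct

variable {F G V W : Type*} [Field F] [Group G] [AddCommGroup V] [Module F V] [AddCommGroup W]
  [Module F W]

/-- each stable subspace has a stable complement -/
def IsSemisimpleRep (ρ : G →* (V →ₗ[F] V)) : Prop :=
  ∀ W : Submodule F V, (∀ g, ∀ x ∈ W, ρ g x ∈ W) →
    ∃ C : Submodule F V, (∀ g, ∀ x ∈ C, ρ g x ∈ C) ∧ IsCompl W C

/-- subrepresentations up to a twist -/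
theorem of_twist {V' : Type*} [AddCommGroup V'] [Module F V'] (ρ : G →* (V →ₗ[F] V))
    (ρ' : G →* (V' →ₗ[F] V')) (χ : G → Fˣ) (s : V →ₗ[F] V') (hs : Function.Injective s)
    (he : ∀ g x, ρ' g (s x) = (χ g : F) • s (ρ g x)) (h : IsSemisimpleRep ρ') :
    IsSemisimpleRep ρ := by
  intro U hU
  obtain ⟨C, hC, hUC⟩ := h (U.map s) (by
    rintro g _ ⟨x, hx, rfl⟩
    rw [he, ← map_smul]
    exact Submodule.mem_map_of_mem (U.smul_mem _ (hU g x hx)))
  refine ⟨C.comap s, fun g x hx => ?_, ?_, ?_⟩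
  · rw [Submodule.mem_comap] at hx ⊢
    have h1 := hC g _ hx
    rw [he] at h1
    have h2 := C.smul_mem ((χ g)⁻¹ : Fˣ).val h1
    rwa [smul_smul, Units.inv_mul, one_smul] at h2
  · rw [Submodule.disjoint_def]
    intro x hx hx'
    have := (Submodule.disjoint_def.1 hUC.disjoint) (s x) (Submodule.mem_map_of_mem hx) hx'
    exact hs (by rw [this, map_zero])
  · rw [codisjoint_iff, eq_top_iff]
    rintro x -
    have h1 : s x ∈ U.map s ⊔ C := by
      rw [hUC.sup_eq_top]
      trivial
    obtain ⟨_, ⟨w, hw, rfl⟩, c, hc, hwc⟩ := Submodule.mem_sup.1 h1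
    rw [Submodule.mem_sup]
    refine ⟨w, hw, x - w, ?_, by abel⟩
    rw [Submodule.mem_comap, map_sub, ← hwc]
    simpa using hc

/-- contraction of the second factor -/
noncomputable def contr (f : W →ₗ[F] F) : V ⊗[F] W →ₗ[F] V :=
  (TensorProduct.rid F V).toLinearMap ∘ₗ f.lTensor V

@[simp] lemma contr_tmul (f : W →ₗ[F] F) (v : V) (w : W) : contr f (v ⊗ₜ[F] w) = f w • v := by
  simp [contr]

lemma contr_map (f : W →ₗ[F] F) (a : V →ₗ[F] V) (b : W →ₗ[F] W) (x : V ⊗[F] W) :
    contr f (TensorProduct.map a b x) = a (contr (f ∘ₗ b) x) := by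
  induction x using TensorProduct.induction_on with
  | zero => simp
  | tmul v w => simp
  | add x y hx hy => simp only [map_add, hx, hy]

lemma contr_add (f g : W →ₗ[F] F) (x : V ⊗[F] W) : contr (f + g) x = contr f x + contr g x := by
  induction x using TensorProduct.induction_on with
  | zero => simp
  | tmul v w => simp [add_smul]
  | add x y hx hy => simp only [map_add, hx, hy]; abel

lemma contr_smul (c : F) (f : W →ₗ[F] F) (x : V ⊗[F] W) : contr (c • f) x = c • contr f x := by
  induction x using TensorProduct.induction_on with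
  | zero => simp
  | tmul v w => simp [mul_smul]
  | add x y hx hy => simp only [map_add, hx, hy, smul_add]

lemma contr_sum {ι : Type*} (t : Finset ι) (f : ι → W →ₗ[F] F) (x : V ⊗[F] W) :
    contr (∑ i ∈ t, f i) x = ∑ i ∈ t, contr (f i) x := by
  classical
  induction t using Finset.induction_on with
  | empty =>
    simp only [Finset.sum_empty]
    induction x using TensorProduct.induction_on with
    | zero => simp
    | tmul v w => simp
    | add x y hx hy => simp only [map_add, hx, hy, add_zero]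
  | insert a t ha ih => rw [Finset.sum_insert ha, Finset.sum_insert ha, contr_add, ih]

/-- **Serre.** In characteristic zero, if `V ⊗ W` is semisimple and `W ≠ 0` then `V` is
semisimple. -/
theorem of_tensor [CharZero F] [Module.Finite F W] [Nontrivial W] (ρ : G →* (V →ₗ[F] V))
    (σ : G →* (W →ₗ[F] W)) (τ : G →* (V ⊗[F] W →ₗ[F] V ⊗[F] W))
    (hτ : ∀ g, τ g = TensorProduct.map (ρ g) (σ g)) (h : IsSemisimpleRep τ) :
    IsSemisimpleRep ρ := by
  classical
  intro U hU
  set b := Module.finBasis F W with hb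
  have hn : (Module.finrank F W : F) ≠ 0 := by
    have := Module.finrank_pos (R := F) (M := W)
    exact_mod_cast this.ne'
  set UW : Submodule F (V ⊗[F] W) := LinearMap.range (U.subtype.rTensor W) with hUW
  have hmem : ∀ u ∈ U, ∀ w : W, u ⊗ₜ[F] w ∈ UW := fun u hu w => ⟨⟨u, hu⟩ ⊗ₜ w, by simp⟩
  have hind : ∀ (P : V ⊗[F] W → Prop), (∀ u ∈ U, ∀ w, P (u ⊗ₜ w)) → P 0 →
      (∀ x y, P x → P y → P (x + y)) → ∀ x ∈ UW, P x := by
    rintro P h1 h0 h2 _ ⟨y, rfl⟩
    induction y using TensorProduct.induction_on with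
    | zero => simpa using h0
    | tmul u w => simpa using h1 u u.2 w
    | add x y hx hy => rw [map_add]; exact h2 _ _ hx hy
  have hstab : ∀ g, ∀ x ∈ UW, τ g x ∈ UW := by
    intro g
    refine hind _ (fun u hu w => ?_) (by simp) (fun x y hx hy => ?_)
    · rw [hτ, TensorProduct.map_tmul]
      exact hmem _ (hU g u hu) _
    · rw [map_add]
      exact UW.add_mem hx hy
  obtain ⟨C, hC, hUC⟩ := h UW hstab
  -- the projection
  set π : V ⊗[F] W →ₗ[F] V ⊗[F] W := UW.subtype ∘ₗ UW.projectionOnto C hUC with hπ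
  have hπU : ∀ x ∈ UW, π x = x := fun x hx => by
    simp only [hπ, LinearMap.comp_apply]
    rw [Submodule.projectionOnto_apply_left hUC ⟨x, hx⟩]
    rfl
  have hπC : ∀ x ∈ C, π x = 0 := fun x hx => by
    simp only [hπ, LinearMap.comp_apply]
    rw [(Submodule.projectionOnto_apply_eq_zero_iff hUC).2 hx]
    simp
  have hπmem : ∀ x, π x ∈ UW := fun x => by
    simp only [hπ, LinearMap.comp_apply]
    exact (UW.projectionOnto C hUC x).2
  have hπτ : ∀ g x, π (τ g x) = τ g (π x) := by
    intro g x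
    have hx : x ∈ UW ⊔ C := by rw [hUC.sup_eq_top]; trivial
    obtain ⟨a, ha, c, hc, rfl⟩ := Submodule.mem_sup.1 hx
    rw [map_add, map_add, map_add, hπU _ (hstab g a ha), hπC _ (hC g c hc), hπU a ha, hπC c hc,
      add_zero, add_zero]
  -- the partial trace
  let q : V →ₗ[F] V := ∑ i, (contr (b.coord i)) ∘ₗ π ∘ₗ (TensorProduct.mk F V W).flip (b i)
  have hq : ∀ v, q v = ∑ i, contr (b.coord i) (π (v ⊗ₜ b i)) := fun v => by
    simp only [q, LinearMap.sum_apply, LinearMap.comp_apply, LinearMap.flip_apply,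
      TensorProduct.mk_apply]
  have hqU : ∀ v, q v ∈ U := by
    intro v
    rw [hq]
    refine Submodule.sum_mem _ fun i _ => ?_
    refine hind (fun x => contr (b.coord i) x ∈ U) (fun u hu w => ?_) (by simp)
      (fun x y hx hy => ?_) _ (hπmem _)
    · rw [contr_tmul]
      exact U.smul_mem _ hu
    · rw [map_add]
      exact U.add_mem hx hy
  have hqid : ∀ u ∈ U, q u = (Module.finrank F W : F) • u := by
    intro u hu
    rw [hq]
    have : ∀ i ∈ (Finset.univ : Finset (Fin (Module.finrank F W))),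
        contr (b.coord i) (π (u ⊗ₜ b i)) = u := fun i _ => by
      rw [hπU _ (hmem u hu _), contr_tmul]
      simp
    rw [Finset.sum_congr rfl this, Finset.sum_const, Finset.card_univ, Fintype.card_fin,
      Nat.cast_smul_eq_nsmul]
  have hqρ : ∀ g v, q (ρ g v) = ρ g (q v) := by
    intro g v
    have hinv : σ g⁻¹ ∘ₗ σ g = LinearMap.id := by
      rw [← Module.End.mul_eq_comp, ← map_mul, inv_mul_cancel, map_one]
      rfl
    have hinv' : σ g ∘ₗ σ g⁻¹ = LinearMap.id := by
      rw [← Module.End.mul_eq_comp, ← map_mul, mul_inv_cancel, map_one]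
      rfl
    -- right side
    have h1 : ρ g (q v) = ∑ i, contr (b.coord i ∘ₗ σ g⁻¹) (π (ρ g v ⊗ₜ σ g (b i))) := by
      rw [hq, map_sum]
      refine Finset.sum_congr rfl fun i _ => ?_
      have e1 : ρ g v ⊗ₜ[F] σ g (b i) = τ g (v ⊗ₜ b i) := by rw [hτ, TensorProduct.map_tmul]
      rw [e1, hπτ, hτ, contr_map, LinearMap.comp_assoc, hinv, LinearMap.comp_id]
    have h2 : ∀ i, contr (b.coord i ∘ₗ σ g⁻¹) (π (ρ g v ⊗ₜ σ g (b i))) =
        ∑ j, b.coord j (σ g (b i)) • contr (b.coord i ∘ₗ σ g⁻¹) (π (ρ g v ⊗ₜ b j)) := by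
      intro i
      conv_lhs => rw [← b.sum_repr (σ g (b i))]
      rw [TensorProduct.tmul_sum, map_sum, map_sum]
      refine Finset.sum_congr rfl fun j _ => ?_
      rw [TensorProduct.tmul_smul, map_smul, map_smul]
      rfl
    have h3 : ∀ j, ∑ i, b.coord j (σ g (b i)) • (b.coord i ∘ₗ σ g⁻¹) = b.coord j := by
      intro j
      have e1 : ∑ i, b.coord j (σ g (b i)) • (b.coord i ∘ₗ σ g⁻¹) =
          (∑ i, b.coord j (σ g (b i)) • b.coord i) ∘ₗ σ g⁻¹ := by
        ext w
        simp [LinearMap.sum_apply]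
      have e2 : ∑ i, b.coord j (σ g (b i)) • b.coord i = b.coord j ∘ₗ σ g := by
        refine b.ext fun m => ?_
        simp only [LinearMap.sum_apply, LinearMap.smul_apply, LinearMap.comp_apply,
          Module.Basis.coord_apply, Module.Basis.repr_self, smul_eq_mul]
        rw [Finset.sum_eq_single m]
        · simp
        · intro i _ hi
          rw [Finsupp.single_eq_of_ne (by simpa using hi), mul_zero]
        · simp
      rw [e1, e2, LinearMap.comp_assoc, hinv', LinearMap.comp_id]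
    rw [h1, Finset.sum_congr rfl fun i _ => h2 i, Finset.sum_comm, hq]
    refine Finset.sum_congr rfl fun j _ => ?_
    have h4 : contr (b.coord j) (π (ρ g v ⊗ₜ[F] b j)) =
        contr (∑ i, b.coord j (σ g (b i)) • (b.coord i ∘ₗ σ g⁻¹)) (π (ρ g v ⊗ₜ[F] b j)) := by
      rw [h3 j]
    rw [h4, contr_sum]
    exact Finset.sum_congr rfl fun i _ => contr_smul _ _ _
  refine ⟨LinearMap.ker q, fun g x hx => ?_, ?_, ?_⟩
  · rw [LinearMap.mem_ker] at hx ⊢
    rw [hqρ, hx, map_zero]
  · rw [Submodule.disjoint_def]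
    intro x hx hx'
    rw [LinearMap.mem_ker, hqid x hx] at hx'
    exact (smul_eq_zero.1 hx').resolve_left hn
  · rw [codisjoint_iff, eq_top_iff]
    rintro x -
    rw [Submodule.mem_sup]
    refine ⟨(Module.finrank F W : F)⁻¹ • q x, U.smul_mem _ (hqU x),
      x - (Module.finrank F W : F)⁻¹ • q x, ?_, by abel⟩
    rw [LinearMap.mem_ker, map_sub, map_smul, hqid _ (hqU x), smul_smul, inv_mul_cancel₀ hn,
      one_smul, sub_self]

end Pool.Agent.Q129.SS
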